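import Pool.Agent.H502R2.Final

/-!
The number of numerical semigroups of genus `g` is strictly increasing in `g` for `g ≥ 1`.
-/

namespace Pool.Agent.Results.MP_56bc24_co.GenusCountIncreasing

open Pool.Agent.H502R2

/-- the set of all numerical semigroups of genus `g`: subsets `S` of `ℕ` containing `0`, closed
under addition, with exactly `g` gaps (the complement is finite and has `g` elements) -/
def NS (g : ℕ) : Set (Set ℕ) :=
  {S | 0 ∈ S ∧ (∀ a ∈ S, ∀ b ∈ S, a + b ∈ S) ∧ Sᶜ.Finite ∧ Sᶜ.ncard = g}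

theorem NS_eq (g : ℕ) : NS g = (fun S : AddSubmonoid ℕ => (S : Set ℕ)) '' SG g := by
  ext S
  constructor
  · rintro ⟨h0, h1, h2, h3⟩
    exact ⟨{ carrier := S, zero_mem' := h0, add_mem' := fun {a b} ha hb => h1 a ha b hb },
      ⟨h2, h3⟩, rfl⟩
  · rintro ⟨T, hT, rfl⟩
    exact ⟨T.zero_mem, fun a ha b hb => T.add_mem ha hb, hT.1, hT.2⟩

theorem NS_ncard (g : ℕ) : (NS g).ncard = (SG g).ncard := by
  rw [NS_eq]
  exact Set.ncard_image_of_injective _ SetLike.coe_injective

/-- For every `g` there are only finitely many numerical semigroups of genus `g`, and for every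
`g ≥ 1` there are strictly more numerical semigroups of genus `g + 1` than of genus `g`. -/
theorem result : (∀ g : ℕ, (NS g).Finite) ∧
    ∀ g : ℕ, 1 ≤ g → (NS g).ncard < (NS (g + 1)).ncard := by
  refine ⟨fun g => ?_, fun g hg => ?_⟩
  · rw [NS_eq]
    exact (SG_finite g).image _
  · rw [NS_ncard, NS_ncard]
    exact SG_lt g hg

end Pool.Agent.Results.MP_56bc24_co.GenusCountIncreasing
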